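import Pool.Agent.Helper20.HP.Data2

/-! # HOPF-T4: the limit inequality for small `ε` -/

set_option autoImplicit false

open Filter Metric Module Set
open scoped Topology ContDiff RealInnerProductSpace Manifold Quaternion

namespace Pool.Agent.Helper50.HP
open Pool.Agent.Helper20.PC Pool.Agent.Helper20.HP

/-! ### topology of the ring of jets -/

local instance topJ2 : TopologicalSpace J2 :=
  TopologicalSpace.induced (fun u : J2 => (u.a, u.b, u.c)) inferInstance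

theorem continuous_J2 {α : Type*} [TopologicalSpace α] {f : α → J2} :
    Continuous f ↔ Continuous (fun p => (f p).a) ∧ Continuous (fun p => (f p).b) ∧
      Continuous (fun p => (f p).c) := by
  rw [continuous_induced_rng]
  constructor
  · intro h
    exact ⟨h.fst, h.snd.fst, h.snd.snd⟩
  · rintro ⟨h1, h2, h3⟩
    exact h1.prodMk (h2.prodMk h3)

theorem continuous_a : Continuous J2.a := (continuous_J2.1 continuous_id).1
theorem continuous_b : Continuous J2.b := (continuous_J2.1 continuous_id).2.1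
theorem continuous_c : Continuous J2.c := (continuous_J2.1 continuous_id).2.2

local instance : ContinuousAdd J2 := ⟨by
  rw [continuous_J2]
  have := continuous_a
  have := continuous_b
  have := continuous_c
  refine ⟨?_, ?_, ?_⟩ <;> simp <;> fun_prop⟩

local instance : ContinuousMul J2 := ⟨by
  rw [continuous_J2]
  have := continuous_a
  have := continuous_b
  have := continuous_c
  refine ⟨?_, ?_, ?_⟩ <;> simp <;> fun_prop⟩

local instance : ContinuousNeg J2 := ⟨by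
  rw [continuous_J2]
  have := continuous_a
  have := continuous_b
  have := continuous_c
  refine ⟨?_, ?_, ?_⟩ <;> simp <;> fun_prop⟩

local instance : IsTopologicalRing J2 where

local instance : ContinuousSMul ℝ J2 := ⟨by
  rw [continuous_J2]
  have := continuous_a
  have := continuous_b
  have := continuous_c
  refine ⟨?_, ?_, ?_⟩ <;> simp <;> fun_prop⟩

section cont
variable {α : Type*} [TopologicalSpace α]

@[fun_prop]
theorem cont_cr {f g : α → E3} (hf : Continuous f) (hg : Continuous g) :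
    Continuous fun p => cr (f p) (g p) := by
  have : (fun p => cr (f p) (g p)) = fun p => crL (f p) (g p) := rfl
  rw [this]
  exact (crL.continuous.comp hf).clm_apply hg

@[fun_prop]
theorem cont_Hb {f g : α → E3} (hf : Continuous f) (hg : Continuous g) :
    Continuous fun p => Hb (f p) (g p) := by
  unfold Hb HbG
  fun_prop

@[fun_prop]
theorem cont_HbG {f g : α → Fin 3 → J2} (hf : ∀ i, Continuous fun p => f p i)
    (hg : ∀ i, Continuous fun p => g p i) : Continuous fun p => HbG (f p) (g p) := by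
  unfold HbG
  have h1 := hf 0
  have h2 := hf 1
  have h3 := hf 2
  have h4 := hg 0
  have h5 := hg 1
  have h6 := hg 2
  fun_prop

@[fun_prop]
theorem cont_FbG {f g : α → Fin 3 → J2} (hf : ∀ i, Continuous fun p => f p i)
    (hg : ∀ i, Continuous fun p => g p i) : Continuous fun p => FbG (f p) (g p) := by
  unfold FbG
  have h1 := hf 0
  have h2 := hf 1
  have h3 := hf 2
  have h4 := hg 0
  have h5 := hg 1
  have h6 := hg 2
  fun_prop

@[fun_prop]
theorem cont_PhG {f g h : α → Fin 3 → J2} (hf : ∀ i, Continuous fun p => f p i)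
    (hg : ∀ i, Continuous fun p => g p i) (hh : ∀ i, Continuous fun p => h p i) :
    Continuous fun p => PhG (f p) (g p) (h p) := by
  unfold PhG
  have h1 := hf 0
  have h2 := hf 1
  have h3 := hf 2
  have h4 := hg 0
  have h5 := hg 1
  have h6 := hg 2
  have h7 := hh 0
  have h8 := hh 1
  have h9 := hh 2
  fun_prop

end cont

theorem cont_J2mk {α : Type*} [TopologicalSpace α] {f g h : α → ℝ} (hf : Continuous f)
    (hg : Continuous g) (hh : Continuous h) : Continuous fun p => (⟨f p, g p, h p⟩ : J2) :=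
  continuous_J2.2 ⟨hf, hg, hh⟩

abbrev Par := ℝ × E3 × E3 × ℝ × ℝ × ℝ

theorem cont_sg (κ : ℝ) : Continuous fun p : Par => sg κ p.2.1 := by unfold sg; fun_prop
theorem cont_sgn (κ : ℝ) : Continuous fun p : Par => sgn κ p.2.1 p.2.2.1 := by
  unfold sgn; fun_prop
theorem cont_rr : Continuous fun p : Par => rr p.1 p.2.1 := by unfold rr; fun_prop
theorem cont_jx1 (κ : ℝ) : Continuous fun p : Par => jx1 κ p.2.1 p.2.2.1 := by
  have := cont_sg κ
  unfold jx1; fun_prop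
theorem cont_jX1 (κ : ℝ) : Continuous fun p : Par => jX1 κ p.2.1 p.2.2.1 := by
  have := cont_sg κ
  have := cont_sgn κ
  unfold jX1; fun_prop
theorem cont_jn1 (κ : ℝ) : Continuous fun p : Par => jn1 κ p.2.1 p.2.2.1 := by
  have := cont_sgn κ
  unfold jn1; fun_prop
theorem cont_js1 (κ : ℝ) : Continuous fun p : Par => js1 κ p.2.1 p.2.2.1 := by
  have := cont_jx1 κ
  unfold js1; fun_prop
theorem cont_jsn1 (κ : ℝ) : Continuous fun p : Par => jsn1 κ p.2.1 p.2.2.1 := by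
  have := cont_jx1 κ
  have := cont_jn1 κ
  unfold jsn1; fun_prop
theorem cont_jx2 (κ : ℝ) : Continuous fun p : Par => jx2 κ p.2.1 p.2.2.1 := by
  have := cont_sg κ
  have := cont_js1 κ
  have := cont_jX1 κ
  unfold jx2; fun_prop
theorem cont_jX2 (κ : ℝ) : Continuous fun p : Par => jX2 κ p.2.1 p.2.2.1 := by
  have := cont_sg κ
  have := cont_sgn κ
  have := cont_js1 κ
  have := cont_jsn1 κ
  have := cont_jx1 κ
  have := cont_jn1 κ
  unfold jX2; fun_prop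
theorem cont_jn2 (κ : ℝ) : Continuous fun p : Par => jn2 κ p.2.1 p.2.2.1 := by
  have := cont_sgn κ
  have := cont_jsn1 κ
  have := cont_jX1 κ
  unfold jn2; fun_prop

theorem cont_comp {f : Par → E3} (hf : Continuous f) (i : Fin 3) :
    Continuous fun p => (f p) i :=
  (continuous_apply i).comp ((PiLp.continuous_ofLp 2 _).comp hf)

theorem cont_Jx (κ : ℝ) (i : Fin 3) : Continuous fun p : Par => Jx κ p.2.1 p.2.2.1 i := by
  unfold Jx
  exact cont_J2mk (by fun_prop) (cont_comp (cont_jx1 κ) i) (cont_comp (cont_jx2 κ) i)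
theorem cont_JX (κ : ℝ) (i : Fin 3) : Continuous fun p : Par => JX κ p.2.1 p.2.2.1 i := by
  unfold JX
  exact cont_J2mk (by fun_prop) (cont_comp (cont_jX1 κ) i) (cont_comp (cont_jX2 κ) i)
theorem cont_Jn (κ : ℝ) (i : Fin 3) : Continuous fun p : Par => Jn κ p.2.1 p.2.2.1 i := by
  unfold Jn
  exact cont_J2mk (cont_comp (by fun_prop) i) (cont_comp (cont_jn1 κ) i)
    (cont_comp (cont_jn2 κ) i)

theorem cont_Jc (κ : ℝ) :
    Continuous fun p : Par => Jc κ p.1 p.2.1 p.2.2.1 p.2.2.2.1 p.2.2.2.2.1 := by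
  have h1 := cont_comp (cont_jx1 κ) 2
  have h2 := cont_rr
  unfold Jc
  exact cont_J2mk (by fun_prop) (by fun_prop)
    (((continuous_fst.mul h1).mul (by fun_prop)).sub ((h2.pow 2).mul (by fun_prop)))
theorem cont_Jz (κ : ℝ) :
    Continuous fun p : Par => Jz κ p.1 p.2.1 p.2.2.1 p.2.2.2.1 p.2.2.2.2.1 := by
  have h1 := cont_comp (cont_jx1 κ) 2
  have h2 := cont_rr
  unfold Jz
  exact cont_J2mk (by fun_prop) (by fun_prop)
    (((continuous_fst.mul h1).mul (by fun_prop)).neg.sub ((h2.pow 2).mul (by fun_prop)))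
theorem cont_Jy : Continuous fun p : Par => J2.C p.2.2.2.2.2 := by
  refine continuous_J2.2 ⟨?_, ?_, ?_⟩ <;> simp <;> fun_prop

theorem cont_Jsg (κ : ℝ) : Continuous fun p : Par => Jsg κ p.2.1 p.2.2.1 := by
  have h := cont_HbG (cont_Jx κ) (cont_Jx κ)
  unfold Jsg
  fun_prop
theorem cont_Jr (κ : ℝ) : Continuous fun p : Par => Jr κ p.1 p.2.1 p.2.2.1 := by
  have h := cont_Jx κ 2
  unfold Jr
  fun_prop
theorem cont_JK (κ : ℝ) : Continuous fun p : Par => JK κ p.2.1 p.2.2.1 := by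
  have h1 := cont_Jsg κ
  have h2 := cont_HbG (cont_Jx κ) (cont_Jx κ)
  have h3 := cont_HbG (cont_Jx κ) (cont_JX κ)
  have h4 := cont_HbG (cont_Jx κ) (cont_Jn κ)
  unfold JK
  fun_prop

theorem cont_Pe (κ T : ℝ) : Continuous fun p : Par =>
    Pe κ p.1 T p.2.1 p.2.2.1 p.2.2.2.1 p.2.2.2.2.1 p.2.2.2.2.2 := by
  have a1 := cont_Jc κ
  have a2 := cont_Jz κ
  have a3 := cont_Jy
  have a4 := cont_Jx κ
  have a5 := cont_JX κ
  have a6 := cont_Jn κ
  have a7 := cont_Jsg κ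
  have a8 := cont_Jr κ
  have a9 := cont_JK κ
  have b1 : ∀ i : Fin 3, Continuous fun p : Par =>
      p.1 • (Jc κ p.1 p.2.1 p.2.2.1 p.2.2.2.1 p.2.2.2.2.1 * Jx κ p.2.1 p.2.2.1 i)
        + p.1 • (Jz κ p.1 p.2.1 p.2.2.1 p.2.2.2.1 p.2.2.2.2.1 * JX κ p.2.1 p.2.2.1 i)
        + J2.C p.2.2.2.2.2 * Jn κ p.2.1 p.2.2.1 i := by
    intro i
    have := a4 i
    have := a5 i
    have := a6 i
    fun_prop
  have b2 := cont_FbG b1 b1
  have b3 := cont_FbG a4 b1
  have b4 := cont_HbG a4 b1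
  have b5 := cont_PhG a4 b1 b1
  have c2 := b1 2
  have c4 := a4 2
  have c5 := a5 2
  have c6 := a6 2
  have hq : Continuous fun p : Par =>
      (1/4 : ℝ) • Jc κ p.1 p.2.1 p.2.2.1 p.2.2.2.1 p.2.2.2.2.1 ^ 2
      + (3 : ℝ) • (Jc κ p.1 p.2.1 p.2.2.1 p.2.2.2.1 p.2.2.2.2.1 *
        (p.1 • (Jc κ p.1 p.2.1 p.2.2.1 p.2.2.2.1 p.2.2.2.2.1 * Jx κ p.2.1 p.2.2.1 2)
        + p.1 • (Jz κ p.1 p.2.1 p.2.2.1 p.2.2.2.1 p.2.2.2.2.1 * JX κ p.2.1 p.2.2.1 2)
        + J2.C p.2.2.2.2.2 * Jn κ p.2.1 p.2.2.1 2))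
      + T • QG κ (Jx κ p.2.1 p.2.2.1) (fun i =>
        p.1 • (Jc κ p.1 p.2.1 p.2.2.1 p.2.2.2.1 p.2.2.2.2.1 * Jx κ p.2.1 p.2.2.1 i)
        + p.1 • (Jz κ p.1 p.2.1 p.2.2.1 p.2.2.2.1 p.2.2.2.2.1 * JX κ p.2.1 p.2.2.1 i)
        + J2.C p.2.2.2.2.2 * Jn κ p.2.1 p.2.2.1 i) := by
    unfold QG
    fun_prop
  have hψ : Continuous fun p : Par =>
      (JK κ p.2.1 p.2.2.1 - Jr κ p.1 p.2.1 p.2.2.1 ^ 2) *
        Jc κ p.1 p.2.1 p.2.2.1 p.2.2.2.1 p.2.2.2.2.1
      + Jsg κ p.2.1 p.2.2.1 * (p.1 • (Jz κ p.1 p.2.1 p.2.2.1 p.2.2.2.1 p.2.2.2.2.1 *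
        JX κ p.2.1 p.2.2.1 2) + J2.C p.2.2.2.2.2 * Jn κ p.2.1 p.2.2.1 2) := by
    fun_prop
  have k1 := continuous_a.comp a9
  have k2 := continuous_c.comp hq
  have k3 := continuous_a.comp hψ
  have k4 := continuous_b.comp hψ
  exact (k1.mul ((k2.const_mul 2).add (k3.pow 2))).sub (k4.pow 2)

/-! ### homogeneity -/

theorem Pe_smul (κ ε T : ℝ) (x X : E3) (t c z y : ℝ) :
    Pe κ ε T x X (t * c) (t * z) (t * y) = t ^ 2 * Pe κ ε T x X c z y := by
  have h1 : Jc κ ε x X (t * c) (t * z) = t • Jc κ ε x X c z := by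
    ext <;> simp [Jc] <;> ring
  have h2 : Jz κ ε x X (t * c) (t * z) = t • Jz κ ε x X c z := by
    ext <;> simp [Jz] <;> ring
  have h3 : J2.C (t * y) = t • J2.C y := by
    ext <;> simp
  unfold Pe
  rw [h1, h2, h3]
  generalize Jc κ ε x X c z = u
  generalize Jz κ ε x X c z = v
  generalize J2.C y = w
  generalize Jx κ x X = jx
  generalize JX κ x X = jX
  generalize Jn κ x X = jn
  generalize JK κ x X = jK
  generalize Jr κ ε x X = jr
  generalize Jsg κ x X = js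
  have hq : (1/4 : ℝ) • (t • u) ^ 2 + (3 : ℝ) • (t • u * (ε • (t • u * jx 2) + ε • (t • v * jX 2)
        + t • w * jn 2))
      + T • QG κ jx (fun i => ε • (t • u * jx i) + ε • (t • v * jX i) + t • w * jn i) =
      t ^ 2 • ((1/4 : ℝ) • u ^ 2 + (3 : ℝ) • (u * (ε • (u * jx 2) + ε • (v * jX 2) + w * jn 2))
      + T • QG κ jx (fun i => ε • (u * jx i) + ε • (v * jX i) + w * jn i)) := by
    simp only [QG, FbG, HbG, PhG, Algebra.smul_def, map_pow, map_mul]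
    ring
  have hψ : (jK - jr ^ 2) * t • u + js * (ε • (t • v * jX 2) + t • w * jn 2) =
      t • ((jK - jr ^ 2) * u + js * (ε • (v * jX 2) + w * jn 2)) := by
    simp only [Algebra.smul_def]
    ring
  simp only [hq, hψ, J2.smul_a, J2.smul_b, J2.smul_c]
  ring

/-! ### the frame -/

theorem norm_sq_E3 (v : E3) : ‖v‖ ^ 2 = v 0 ^ 2 + v 1 ^ 2 + v 2 ^ 2 := by
  rw [EuclideanSpace.norm_sq_eq, Fin.sum_univ_three]
  simp

theorem inner_E3 (v w : E3) : ⟪v, w⟫ = v 0 * w 0 + v 1 * w 1 + v 2 * w 2 := by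
  rw [PiLp.inner_apply, Fin.sum_univ_three]
  simp
  ring

theorem frame_decomp {x X : E3} (hx : ‖x‖ = 1) (hX : ‖X‖ = 1) (hxX : ⟪x, X⟫ = 0) (b : E3) :
    ∃ c z y : ℝ, b = c • x + z • X + y • cr x X ∧ ‖b‖ ^ 2 = c ^ 2 + z ^ 2 + y ^ 2 := by
  have e1 : x 0 ^ 2 + x 1 ^ 2 + x 2 ^ 2 = 1 := by rw [← norm_sq_E3, hx, one_pow]
  have e2 : X 0 ^ 2 + X 1 ^ 2 + X 2 ^ 2 = 1 := by rw [← norm_sq_E3, hX, one_pow]
  have e3 : x 0 * X 0 + x 1 * X 1 + x 2 * X 2 = 0 := by rw [← inner_E3, hxX]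
  let M : Matrix (Fin 3) (Fin 3) ℝ :=
    !![x 0, x 1, x 2; X 0, X 1, X 2; x 1 * X 2 - x 2 * X 1, x 2 * X 0 - x 0 * X 2,
      x 0 * X 1 - x 1 * X 0]
  have hM : M * M.transpose = 1 := by
    ext i j
    fin_cases i <;> fin_cases j <;>
      simp [M, Matrix.mul_apply, Fin.sum_univ_three, Matrix.transpose_apply]
    · nlinarith [e1]
    · nlinarith [e3]
    · ring
    · nlinarith [e3]
    · nlinarith [e2]
    · ring
    · ring
    · ring
    · have : (x 1 * X 2 - x 2 * X 1) * (x 1 * X 2 - x 2 * X 1)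
          + (x 2 * X 0 - x 0 * X 2) * (x 2 * X 0 - x 0 * X 2)
          + (x 0 * X 1 - x 1 * X 0) * (x 0 * X 1 - x 1 * X 0) =
          (x 0 ^ 2 + x 1 ^ 2 + x 2 ^ 2) * (X 0 ^ 2 + X 1 ^ 2 + X 2 ^ 2)
          - (x 0 * X 0 + x 1 * X 1 + x 2 * X 2) ^ 2 := by ring
      rw [this, e1, e2, e3]
      norm_num
  have hM' : M.transpose * M = 1 := mul_eq_one_comm.1 hM
  have f : ∀ i j, M 0 i * M 0 j + M 1 i * M 1 j + M 2 i * M 2 j = if i = j then 1 else 0 := by
    intro i j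
    have := congrFun (congrFun hM' i) j
    simp only [Matrix.mul_apply, Fin.sum_univ_three, Matrix.transpose_apply,
      Matrix.one_apply] at this
    exact this
  have f00 := f 0 0
  have f01 := f 0 1
  have f02 := f 0 2
  have f11 := f 1 1
  have f12 := f 1 2
  have f22 := f 2 2
  simp [M] at f00 f01 f02 f11 f12 f22
  refine ⟨x 0 * b 0 + x 1 * b 1 + x 2 * b 2, X 0 * b 0 + X 1 * b 1 + X 2 * b 2,
    (x 1 * X 2 - x 2 * X 1) * b 0 + (x 2 * X 0 - x 0 * X 2) * b 1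
      + (x 0 * X 1 - x 1 * X 0) * b 2, ?_, ?_⟩
  · ext i
    fin_cases i
    · simp [cr]
      linear_combination (-b 0) * f00 - b 1 * f01 - b 2 * f02
    · simp [cr]
      linear_combination (-b 0) * f01 - b 1 * f11 - b 2 * f12
    · simp [cr]
      linear_combination (-b 0) * f02 - b 1 * f12 - b 2 * f22
  · rw [norm_sq_E3]
    linear_combination (-b 0 ^ 2) * f00 - 2 * b 0 * b 1 * f01 - 2 * b 0 * b 2 * f02
      - b 1 ^ 2 * f11 - 2 * b 1 * b 2 * f12 - b 2 ^ 2 * f22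

theorem compact_eps {Z : Type*} [TopologicalSpace Z] {S : Set Z} (hS : IsCompact S)
    {f : ℝ × Z → ℝ} (hf : Continuous f) (h0 : ∀ p ∈ S, 0 < f (0, p)) :
    ∃ ε m : ℝ, 0 < ε ∧ ε ≤ 1 ∧ 0 < m ∧ ∀ p ∈ S, m < f (ε, p) := by
  obtain ⟨m, hm, hmS⟩ : ∃ m : ℝ, 0 < m ∧ ∀ p ∈ S, m < f (0, p) := by
    have hc0 : Continuous fun p : Z => f (0, p) := hf.comp (continuous_const.prodMk continuous_id)
    rcases S.eq_empty_or_nonempty with h | h
    · exact ⟨1, one_pos, by rw [h]; simp⟩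
    · obtain ⟨p, hpS, hp⟩ := hS.exists_isMinOn h hc0.continuousOn
      have hpos := h0 p hpS
      refine ⟨f (0, p) / 2, half_pos hpos, fun p' hp' => ?_⟩
      exact (half_lt_self hpos).trans_le (hp hp')
  have hopen : IsOpen {q : ℝ × Z | m < f q} := isOpen_lt continuous_const hf
  obtain ⟨u, v, hu, hv, h0u, hSv, huv⟩ := generalized_tube_lemma (isCompact_singleton (x := (0 : ℝ)))
    hS hopen (by
      rintro ⟨e, p⟩ ⟨he, hp⟩
      have he' : e = 0 := he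
      subst he'
      exact hmS p hp)
  have h0 : (0 : ℝ) ∈ u := h0u rfl
  obtain ⟨r, hr, hru⟩ := Metric.isOpen_iff.1 hu 0 h0
  have hεpos : 0 < min (r / 2) 1 := lt_min (half_pos hr) one_pos
  refine ⟨min (r / 2) 1, m, hεpos, min_le_right _ _, hm, fun p hp => ?_⟩
  have hεu : min (r / 2) 1 ∈ u := by
    apply hru
    rw [mem_ball_zero_iff, Real.norm_of_nonneg hεpos.le]
    exact (min_le_left _ _).trans_lt (half_lt_self hr)
  exact huv (show (min (r / 2) 1, p) ∈ u ×ˢ v from ⟨hεu, hSv hp⟩)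

/-! ### the theorem -/

theorem tstage
    (H1 : ∀ {κ ε T : ℝ} (_ : ε ≠ 0) {x X : E3} (_ : ‖x‖ = 1) (_ : ‖X‖ = 1) (_ : ⟪x, X⟫ = 0)
      (c z y : ℝ), Pf κ ε T x X (c • x + z • X + (y / ε) • cr x X) = Pe κ ε T x X c z y)
    (H2 : ∃ κ T : ℝ, 0 < κ ∧ κ ≤ 1/10 ∧ 0 < T ∧ (∀ x : E3, ‖x‖ = 1 → 1/2 ≤ Kc κ x) ∧
      ∀ x X : E3, ‖x‖ = 1 → ‖X‖ = 1 → ⟪x, X⟫ = 0 → ∀ c z y : ℝ, c ^ 2 + z ^ 2 + y ^ 2 ≠ 0 →
        0 < Pe κ 0 T x X c z y) :
    ∃ κ ε T c : ℝ, 0 < κ ∧ κ ≤ 1/10 ∧ 0 < ε ∧ 0 < T ∧ 0 < c ∧ (∀ x : E3, ‖x‖ = 1 → 1/2 ≤ Kc κ x) ∧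
      ∀ x X b : E3, ‖x‖ = 1 → ‖X‖ = 1 → ⟪x, X⟫ = 0 → c * ‖b‖ ^ 2 ≤ Pf κ ε T x X b := by
  obtain ⟨κ, T, hκ, hκ1, hT, hK, hP⟩ := H2
  have hcont := cont_Pe κ T
  set S : Set (E3 × E3 × ℝ × ℝ × ℝ) := {p | ‖p.1‖ = 1 ∧ ‖p.2.1‖ = 1 ∧ ⟪p.1, p.2.1⟫ = 0 ∧
    p.2.2.1 ^ 2 + p.2.2.2.1 ^ 2 + p.2.2.2.2 ^ 2 = 1} with hS
  have hSc : IsCompact S := by
    refine Metric.isCompact_of_isClosed_isBounded ?_ ?_
    · refine IsClosed.inter ?_ (IsClosed.inter ?_ (IsClosed.inter ?_ ?_))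
      · exact isClosed_eq (by fun_prop) continuous_const
      · exact isClosed_eq (by fun_prop) continuous_const
      · exact isClosed_eq (by fun_prop) continuous_const
      · exact isClosed_eq (by fun_prop) continuous_const
    · refine (Metric.isBounded_closedBall (x := (0 : E3 × E3 × ℝ × ℝ × ℝ)) (r := 1)).subset ?_
      rintro ⟨x, X, c, z, y⟩ ⟨h1, h2, -, h4⟩
      simp only at h1 h2 h4
      rw [mem_closedBall_zero_iff]
      have a1 : |c| ≤ 1 := by rw [← sq_le_one_iff_abs_le_one]; nlinarith [sq_nonneg z, sq_nonneg y]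
      have a2 : |z| ≤ 1 := by rw [← sq_le_one_iff_abs_le_one]; nlinarith [sq_nonneg c, sq_nonneg y]
      have a3 : |y| ≤ 1 := by rw [← sq_le_one_iff_abs_le_one]; nlinarith [sq_nonneg z, sq_nonneg c]
      simp only [Prod.norm_def, Real.norm_eq_abs, sup_le_iff]
      exact ⟨h1.le, h2.le, a1, a2, a3⟩
  obtain ⟨ε, m, hεpos, hε1, hm, hlow⟩ := compact_eps hSc (f := fun q : ℝ × (E3 × E3 × ℝ × ℝ × ℝ) =>
    Pe κ q.1 T q.2.1 q.2.2.1 q.2.2.2.1 q.2.2.2.2.1 q.2.2.2.2.2) hcont (by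
      rintro p ⟨h1, h2, h3, h4⟩
      exact hP p.1 p.2.1 h1 h2 h3 p.2.2.1 p.2.2.2.1 p.2.2.2.2 (by rw [h4]; exact one_ne_zero))
  refine ⟨κ, ε, T, m * ε ^ 2, hκ, hκ1, hεpos, hT, by positivity, hK, ?_⟩
  intro x X b hx hX hxX
  obtain ⟨c, z, y, hb, hbn⟩ := frame_decomp hx hX hxX b
  have hy : y = (ε * y) / ε := by field_simp
  have e1 : Pf κ ε T x X b = Pe κ ε T x X c z (ε * y) := by
    rw [hb]
    conv_lhs => rw [hy]
    exact H1 hεpos.ne' hx hX hxX c z (ε * y)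
  rw [e1, hbn]
  set s : ℝ := √(c ^ 2 + z ^ 2 + (ε * y) ^ 2) with hs
  have hs2 : s ^ 2 = c ^ 2 + z ^ 2 + (ε * y) ^ 2 := Real.sq_sqrt (by positivity)
  have hε2 : ε ^ 2 ≤ 1 := by nlinarith
  have hle : ε ^ 2 * (c ^ 2 + z ^ 2 + y ^ 2) ≤ s ^ 2 := by
    rw [hs2]
    nlinarith [sq_nonneg c, sq_nonneg z, sq_nonneg y]
  rcases eq_or_ne s 0 with h | h
  · have hz : c = 0 ∧ z = 0 ∧ ε * y = 0 := by
      rw [h] at hs2
      have h1 : c ^ 2 = 0 := by nlinarith [sq_nonneg c, sq_nonneg z, sq_nonneg (ε * y)]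
      have h2 : z ^ 2 = 0 := by nlinarith [sq_nonneg c, sq_nonneg z, sq_nonneg (ε * y)]
      have h3 : (ε * y) ^ 2 = 0 := by nlinarith [sq_nonneg c, sq_nonneg z, sq_nonneg (ε * y)]
      exact ⟨pow_eq_zero_iff (two_ne_zero) |>.1 h1, pow_eq_zero_iff (two_ne_zero) |>.1 h2,
        pow_eq_zero_iff (two_ne_zero) |>.1 h3⟩
    have hPe : Pe κ ε T x X c z (ε * y) = 0 := by
      have := Pe_smul κ ε T x X 0 c z (ε * y)
      rw [hz.1, hz.2.1, hz.2.2]
      simpa [hz.1, hz.2.1, hz.2.2] using this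
    rw [hPe]
    rw [h] at hle
    nlinarith
  · have hc : c = s * (c / s) := by field_simp
    have hz : z = s * (z / s) := by field_simp
    have hy' : ε * y = s * (ε * y / s) := by field_simp
    have hlt : m < Pe κ ε T x X (c / s) (z / s) (ε * y / s) := by
      refine hlow (x, X, c / s, z / s, ε * y / s) ⟨hx, hX, hxX, ?_⟩
      simp only
      rw [div_pow, div_pow, div_pow, ← add_div, ← add_div, ← hs2]
      exact div_self (pow_ne_zero 2 h)
    have e2 : Pe κ ε T x X c z (ε * y) = s ^ 2 * Pe κ ε T x X (c / s) (z / s) (ε * y / s) := by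
      rw [← Pe_smul, ← hc, ← hz, ← hy']
    rw [e2]
    have hs3 : 0 < s ^ 2 := by positivity
    nlinarith [mul_le_mul_of_nonneg_left hle hm.le, mul_lt_mul_of_pos_left hlt hs3]

end Pool.Agent.Helper50.HP
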